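import Pool.Agent.H20.KB.TRF
import Pool.Agent.H60.KB.USF
import Pool.Agent.H86.KB.US0

/-!
# Project KB, module EXT: one short step at a near extremal state
-/

set_option autoImplicit false
set_option linter.unusedSectionVars false

open MeasureTheory Set Filter Topology
open scoped ContDiff

namespace Pool.Agent.H35.KB

open Pool.Agent.H84 Pool.Agent.H84.Sym Pool.Agent.H84.Sym.P2x Pool.Agent.H19.KL
open Pool.Agent.H73.KG Pool.Agent.H20.KH Pool.Agent.H52.KB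
open Pool.Agent.H55.KB (WS spl FL gN GG ML)

variable (E : Type) [NormedAddCommGroup E] [InnerProductSpace ℝ E]
    [FiniteDimensional ℝ E] [MeasurableSpace E] [BorelSpace E]

variable {E} in
/-- the vectors of a frame have norm at most one -/
theorem ext_inner_le {t : ℝ} {U : E → ℝ} {e : Module.Basis (JJ E) ℝ E} (h : Fr E t U e)
    (a c : JJ E) : |inner ℝ (e a) (e c)| ≤ 1 := by
  have hn : ∀ a : JJ E, ‖e a‖ ≤ 1 := by
    intro a
    have h1 := congrFun (congrFun h.orth a) a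
    rw [Matrix.one_apply_eq] at h1
    have h2 : inner ℝ (e a) (e a) + cv U (li (e a)) (li (e a)) = 1 := h1
    have h3 : 0 ≤ cv U (li (e a)) (li (e a)) := H86.KN.cv_nn h.pp (Pool.Agent.H85.KG.gc_lin _)
    rw [real_inner_self_eq_norm_sq] at h2
    nlinarith [norm_nonneg (e a)]
  calc |inner ℝ (e a) (e c)| ≤ ‖e a‖ * ‖e c‖ := abs_real_inner_le_norm _ _
    _ ≤ 1 * 1 := mul_le_mul (hn a) (hn c) (norm_nonneg _) zero_le_one
    _ = 1 := one_mul 1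

theorem ext_thm : EXTStmt E := by
  intro t n lam φ ht hlam hφ hFB
  obtain ⟨C₁, hC₁, h₁⟩ := Pool.Agent.H60.KB.usf_thm E t ht (n + 1)
  obtain ⟨C₂, hC₂, h₂⟩ := Pool.Agent.H60.KB.usf_thm E t ht n
  obtain ⟨C₃, hC₃, h₃⟩ := us0_thm E t ht
  refine ⟨1 + C₁ + lam * C₂ + φ * C₃, by positivity, ?_⟩
  intro ε hε hε1 U e hFr ψ hψ hext
  obtain ⟨U', hU', hgram, hnx, hT⟩ := trf_thm E t U e hFr
  obtain ⟨ψ', hψ', hcv, hnp, hV⟩ := hT ψ hψ
  set s := Real.sqrt ε with hsdef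
  have hs0 : 0 < s := Real.sqrt_pos.2 hε
  have hss : s ^ 2 = ε := Real.sq_sqrt hε.le
  have hs1 : s ≤ 1 := by rw [hsdef]; exact Real.sqrt_le_one.2 hε1
  set ρ : Matrix (JJ E) (JJ E) ℝ := Matrix.of fun a c => inner ℝ (e a) (e c) with hρ
  have hρ1 : ∀ a c, |ρ a c| ≤ 1 := fun a c => ext_inner_le hFr a c
  have hρ2 : ρ + AX (b0 E) U' = 1 := by
    ext a c
    rw [Matrix.add_apply]
    exact hgram a c
  -- transfer of the quantities at time zero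
  have hhs : ∀ m, H35.KB.hs (b0 E) U' ψ' m = H35.KB.hs e U ψ m := by
    intro m
    unfold H35.KB.hs
    exact congrArg (WS m) (funext fun l => by rw [hnp])
  have hnpf : np (b0 E) U' ψ' = np e U ψ := funext hnp
  have hnxf : nx (b0 E) U' = nx e U := by
    funext a l
    exact hnx a l
  have hGX : ∀ m, GX (b0 E) U' ψ' m = GX e U ψ m := by
    intro m
    unfold GX AX TX
    rw [hnpf, hnxf]
  obtain ⟨g₁, a₁⟩ := h₁ U' hU' ρ hρ1 hρ2 ψ' hψ' s hs0 hs1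
  obtain ⟨g₂, a₂⟩ := h₂ U' hU' ρ hρ1 hρ2 ψ' hψ' s hs0 hs1
  have a₃ := h₃ U' hU' ψ' hψ' s hs0 hs1
  rw [hhs, hGX, hcv] at a₁ a₂
  rw [hhs, hcv] at a₃
  have b₁ := (abs_le.1 a₁).1
  have b₂ := (abs_le.1 a₂).1
  have b₃ := (abs_le.1 a₃).2
  set V := cv U ψ ψ with hVdef
  have hV0 : 0 ≤ V := H86.KN.cv_nn hFr.pp hψ
  have g₃ : GC (fun θ => cv (pw U' s θ) ψ' ψ') :=
    H86.KN.GC_rg (H86.KN.qCVR E U' t hU' ψ' ψ' hψ' hψ') hs0
  obtain ⟨-, hadd, hmul, -, hmono, -, -⟩ := H86.KN.qBAY E U' t hU' s hs0.le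
  set F₁ : E → ℝ := fun θ => FL (ρ + AX (b0 E) (pw U' s θ)) (n + 1) (np (b0 E) (pw U' s θ) ψ')
    with hF₁
  set F₂ : E → ℝ := fun θ => FL (ρ + AX (b0 E) (pw U' s θ)) n (np (b0 E) (pw U' s θ) ψ')
    with hF₂
  have g₂' : GC (fun θ => lam * F₂ θ) := (GC.const lam).mul g₂
  have e1 : EX U' s (fun θ => F₁ θ + lam * F₂ θ) = EX U' s F₁ + lam * EX U' s F₂ := by
    rw [hadd _ _ g₁ g₂', hmul]
  have hle : ∀ θ, F₁ θ + lam * F₂ θ ≤ φ * cv (pw U' s θ) ψ' ψ' := by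
    intro θ
    obtain ⟨W, hW, hcW, hnpW, hcvW⟩ := hV s θ hs0.le
    have h := hFB W hW e ψ hψ
    have hP : PG e W = ρ + AX (b0 E) (pw U' s θ) := by
      ext a c
      rw [Matrix.add_apply, ← hcvW a c]
      rfl
    have hN : np e W ψ = np (b0 E) (pw U' s θ) ψ' := funext hnpW
    rw [hP, hN, hcW] at h
    exact h
  have e2 : EX U' s (fun θ => F₁ θ + lam * F₂ θ) ≤
      φ * EX U' s (fun θ => cv (pw U' s θ) ψ' ψ') := by
    rw [← hmul]
    exact hmono _ _ (g₁.add g₂') ((GC.const φ).mul g₃) hle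
  rw [e1] at e2
  have e3 := mul_le_mul_of_nonneg_left b₂ hlam
  have e4 := mul_le_mul_of_nonneg_left b₃ hφ
  set X₁ := EX U' s F₁
  set X₂ := EX U' s F₂
  set X₃ := EX U' s (fun θ => cv (pw U' s θ) ψ' ψ')
  set G₁ := GX e U ψ (n + 1)
  set G₂ := GX e U ψ n
  set W := H35.KB.hs (⇑e) U ψ 1
  have k1 : -(C₁ * s ^ 2 * V) + H35.KB.hs (⇑e) U ψ (n + 2) + s * G₁ ≤ X₁ := by
    have := b₁
    linarith
  have k2 : lam * (-(C₂ * s ^ 2 * V) + H35.KB.hs (⇑e) U ψ (n + 1) + s * G₂) ≤ lam * X₂ := by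
    refine mul_le_mul_of_nonneg_left ?_ hlam
    linarith [b₂]
  have k3 : φ * X₃ ≤ φ * (V - s * W + C₃ * s ^ 2 * V) := by
    refine mul_le_mul_of_nonneg_left ?_ hφ
    linarith [b₃]
  have key : s * (G₁ + lam * G₂ + φ * W) ≤
      s * ((1 + C₁ + lam * C₂ + φ * C₃) * s * V) := by
    have h5 : ε * V = s ^ 2 * V := by rw [hss]
    nlinarith [k1, k2, k3, e2, hext, h5]
  exact le_of_mul_le_mul_left key hs0

end Pool.Agent.H35.KB
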